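import Mathlib
import Pool.Agent.W62.ASA.Vol

/-!
For every `n ≥ 3` affine surface area domination does not imply volume comparison.

`C₂` is a cross-polytope of radius slightly less than one, and `C₁` is the cross-polytope of
radius one with its vertices cut off. The surface areas of the linear images of both bodies are
linear combinations of the norms of the vectors `∑ ± v i` (the facets of the cross-polytope) and
of `v i` (the new small facets), where the `v i` are the rows of the adjugate matrix. Hlawka's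
inequality bounds the latter by the former. Cutting off the vertices changes the surface area in
the order `δ ^ (n - 1)`, but the volume only in the order `δ ^ n`.
-/

set_option autoImplicit false
set_option maxHeartbeats 4000000

open MeasureTheory Measure Set
open scoped ENNReal Pointwise

namespace Pool.Agent.Results.MP_8228af_gt.VolumeFails

/-- a convex body: compact, convex, with nonempty interior -/
def IsConvexBody {n : ℕ} (C : Set (EuclideanSpace ℝ (Fin n))) : Prop :=
  IsCompact C ∧ Convex ℝ C ∧ (interior C).Nonempty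

/-- some translate of `C` is symmetric about the origin -/
def IsCentrallySymmetric {n : ℕ} (C : Set (EuclideanSpace ℝ (Fin n))) : Prop :=
  ∃ x : EuclideanSpace ℝ (Fin n), -((fun y => y - x) '' C) = (fun y => y - x) '' C

/-- surface area: the `(n - 1)`-dimensional (Euclidean) Hausdorff measure of the boundary -/
noncomputable def surfaceArea {n : ℕ} (C : Set (EuclideanSpace ℝ (Fin n))) : ℝ≥0∞ :=
  μHE[n - 1] (frontier C)

open W62.ASA in
theorem aux (m : ℕ) (hm : 2 ≤ m) :
    ∃ C₁ C₂ : Set (EuclideanSpace ℝ (Fin (m + 1))),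
      IsConvexBody C₁ ∧ IsConvexBody C₂ ∧ IsCentrallySymmetric C₁ ∧ IsCentrallySymmetric C₂ ∧
      (∀ A : EuclideanSpace ℝ (Fin (m + 1)) ≃ᵃ[ℝ] EuclideanSpace ℝ (Fin (m + 1)),
        surfaceArea (A '' C₁) ≤ surfaceArea (A '' C₂) ∧ surfaceArea (A '' C₂) < ⊤) ∧
      volume C₂ < volume C₁ := by
  obtain ⟨k, d, q, r, hk, hkd, hd, hq, hqr, hsm, hnum, hvol⟩ := numbers m hm
  have hd0 : 0 < d := hk.trans hkd
  have hr : 0 < r := hq.trans hqr
  refine ⟨trunc (m + 1) d, cross (m + 1) r,
    ⟨trunc_compact _ _, trunc_convex _ _, trunc_int_nonempty _ (by linarith)⟩,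
    ⟨cross_compact _ _, cross_convex _ _, cross_int_nonempty _ hr⟩,
    ⟨0, by simpa using trunc_neg _ _⟩, ⟨0, by simpa using cross_neg _ _⟩, ?_, ?_⟩
  · intro A
    have hfr : ∀ S : Set (EuclideanSpace ℝ (Fin (m + 1))),
        surfaceArea (A '' S) = nu A.linear (frontier S) := by
      intro S
      have h1 : frontier (A '' S) = A '' frontier S := by
        have hA : Continuous A := A.continuous_of_finiteDimensional
        have hA' : Continuous A.symm := A.symm.continuous_of_finiteDimensional
        exact (Homeomorph.image_frontier ⟨A.toEquiv, hA, hA'⟩ S).symm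
      have h2 : A '' frontier S = (fun x => A 0 + x) '' (A.linear '' frontier S) := by
        rw [← image_comp]
        refine image_congr fun x _ => ?_
        have := A.map_vadd 0 x
        simp only [vadd_eq_add, add_zero] at this
        simp only [Function.comp_apply]
        rw [this]
        exact add_comm _ _
      show μHE[m + 1 - 1] (frontier (A '' S)) = _
      rw [Nat.add_sub_cancel, h1, h2, (isometry_add_left (A 0)).euclideanHausdorffMeasure_image,
        nu_apply]
    rw [hfr, hfr]
    refine ⟨?_, nu_cross_lt_top _ hr⟩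
    refine (upper A.linear hk hkd hd hsm).trans (le_trans ?_ (lower A.linear hq hqr))
    gcongr
    set T := ∑ i, ‖av A.linear.toLinearMap i‖ with hT
    set S := ∑ s : Fin (m + 1) → Bool, ‖∑ i, sg (s i) • av A.linear.toLinearMap i‖ with hS
    have hS0 : 0 ≤ S := Finset.sum_nonneg fun _ _ => norm_nonneg _
    have h3 : 3 * (2 : ℝ) ^ (m + 1) * T ≤ 2 * ((m : ℝ) + 1) * S := sign_sum hm _
    have h4 : (2 : ℝ) ^ (m + 1) * d ^ m * T ≤ 2 / 3 * ((m : ℝ) + 1) * d ^ m * S := by
      have : 0 ≤ d ^ m := by positivity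
      have h5 := mul_le_mul_of_nonneg_left h3 this
      linarith
    have h5 := mul_le_mul_of_nonneg_right hnum hS0
    linarith
  · have hV0 : volume (cross (m + 1) 1) ≠ 0 :=
      (measure_pos_of_nonempty_interior _ (cross_int_nonempty _ one_pos)).ne'
    have hVt : volume (cross (m + 1) 1) ≠ ⊤ := (cross_compact _ _).measure_lt_top.ne
    rw [vol_cross _ hr]
    have h1 := vol_trunc (m := m) hd0
    set V := volume (cross (m + 1) 1) with hV
    have hle : 0 ≤ 1 - 2 * ((m : ℝ) + 1) * d ^ (m + 1) :=
      (pow_nonneg hr.le (m + 1)).trans hvol.le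
    have h2 : V = ENNReal.ofReal (1 - 2 * ((m : ℝ) + 1) * d ^ (m + 1)) * V +
        ENNReal.ofReal (2 * ((m : ℝ) + 1) * d ^ (m + 1)) * V := by
      rw [← add_mul, ← ENNReal.ofReal_add hle (by positivity)]
      simp
    have h3 : ENNReal.ofReal (1 - 2 * ((m : ℝ) + 1) * d ^ (m + 1)) * V ≤
        volume (trunc (m + 1) d) := by
      have hfin : ENNReal.ofReal (2 * ((m : ℝ) + 1) * d ^ (m + 1)) * V ≠ ⊤ :=
        (ENNReal.mul_lt_top ENNReal.ofReal_lt_top (lt_top_iff_ne_top.mpr hVt)).ne
      refine (ENNReal.add_le_add_iff_right hfin).mp ?_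
      rw [← h2]; exact h1
    refine lt_of_lt_of_le ?_ h3
    refine (ENNReal.mul_lt_mul_iff_left hV0 hVt).mpr ?_
    exact (ENNReal.ofReal_lt_ofReal_iff_of_nonneg (pow_nonneg hr.le _)).mpr hvol

/-- **Main result.** In every dimension `n ≥ 3` there are centrally symmetric convex bodies
`C₁`, `C₂` such that `S(A C₁) ≤ S(A C₂) < ∞` for every nonsingular affine map `A`, but
`Vol C₁ > Vol C₂`. -/
theorem result (n : ℕ) (hn : 3 ≤ n) :
    ∃ C₁ C₂ : Set (EuclideanSpace ℝ (Fin n)),
      IsConvexBody C₁ ∧ IsConvexBody C₂ ∧ IsCentrallySymmetric C₁ ∧ IsCentrallySymmetric C₂ ∧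
      (∀ A : EuclideanSpace ℝ (Fin n) ≃ᵃ[ℝ] EuclideanSpace ℝ (Fin n),
        surfaceArea (A '' C₁) ≤ surfaceArea (A '' C₂) ∧ surfaceArea (A '' C₂) < ⊤) ∧
      volume C₂ < volume C₁ := by
  obtain ⟨m, rfl⟩ : ∃ m, n = m + 1 := ⟨n - 1, by omega⟩
  exact aux m (by omega)

end Pool.Agent.Results.MP_8228af_gt.VolumeFails
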